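import Pool.Agent.H121.SH.Iface
import Pool.Agent.H155.GA.RuA
import Pool.Agent.H399.GA.Site
import Pool.Agent.H168.Y987.Op
import Pool.Agent.H121.Z987.Rs

/-! Project SH (helper121): SH-ETA, the second moment of an off diagonal Green function. -/

set_option autoImplicit false

open scoped BigOperators InnerProductSpace Topology ENNReal
open Filter MeasureTheory

namespace Pool.Agent.H115.SH

open Pool.Agent.Y662.TR (LL dv)
open Pool.Agent.H987.Z (Rs)
open Pool.Agent.H987.Y (Ker Op)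
open Pool.Agent.H121.UE (rk)
open Pool.Agent.H121.GA (GU RU S_ruA)
open Pool.Agent.H121.SH

theorem sq_div_le (a s : ℝ) (ha : 0 ≤ a) (hs : 0 < s) (hs1 : s ≤ 1) :
    a ^ 2 / (1 + a ^ 2) ≤ a ^ s := by
  have h1 : 0 < 1 + a ^ 2 := by positivity
  rcases le_or_gt a 1 with h | h
  · rcases eq_or_lt_of_le ha with h0 | h0
    · rw [← h0, Real.zero_rpow hs.ne']
      norm_num
    · have h2 : a ^ 2 / (1 + a ^ 2) ≤ a ^ 2 := by
        rw [div_le_iff₀ h1]
        nlinarith [sq_nonneg a, sq_nonneg (a ^ 2)]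
      refine h2.trans ?_
      rw [← Real.rpow_natCast]
      exact Real.rpow_le_rpow_of_exponent_ge h0 h (by push_cast; linarith)
  · have h2 : a ^ 2 / (1 + a ^ 2) ≤ 1 := by
      rw [div_le_one h1]
      linarith
    exact h2.trans (Real.one_le_rpow h.le hs.le)

theorem inv_integral (t η : ℝ) (hη : 0 < η) :
    ∫ v : ℝ, (1 + ((v - t) / η) ^ 2)⁻¹ = η * Real.pi := by
  have h1 := integral_sub_right_eq_self (fun v : ℝ => (1 + (v / η) ^ 2)⁻¹) (μ := volume) t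
  rw [h1]
  have h2 := MeasureTheory.Measure.integral_comp_div (fun v : ℝ => (1 + v ^ 2)⁻¹) η
  rw [h2, integral_univ_inv_one_add_sq, abs_of_pos hη]
  rfl

theorem inv_integrable (t η : ℝ) (hη : 0 < η) :
    Integrable (fun v : ℝ => (1 + ((v - t) / η) ^ 2)⁻¹) := by
  have h := (integrable_inv_one_add_sq.comp_div (R := η) hη.ne').comp_sub_right t
  exact h

theorem one_int (D lam s η : ℝ) (hD : 0 < D) (hl : 0 < lam) (hs : 0 < s) (hs1 : s ≤ 1)
    (μ : Measure ℝ) (hμ : ∀ A : Set ℝ, MeasurableSet A → μ A ≤ ENNReal.ofReal D * volume A)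
    (hη : 0 < η) (β g : ℂ) (hβ : η * (1 + ‖g‖ ^ 2) ≤ β.im) :
    ∫⁻ v : ℝ, ENNReal.ofReal (η * (‖g‖ / ‖((lam * v : ℝ) : ℂ) - β‖) ^ 2) ∂μ ≤
      ENNReal.ofReal (Real.pi * D / lam) * ‖g‖ₑ ^ s := by
  have hle : μ ≤ ENNReal.ofReal D • volume := by
    rw [Measure.le_iff]
    intro A hA
    simpa using hμ A hA
  refine (lintegral_mono' hle le_rfl).trans ?_
  rw [lintegral_smul_measure]
  have hg0 : 0 < 1 + ‖g‖ ^ 2 := by positivity
  have hi : 0 < β.im := lt_of_lt_of_le (mul_pos hη hg0) hβ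
  have hη' : 0 < β.im / lam := div_pos hi hl
  have hpt : ∀ v : ℝ, η * (‖g‖ / ‖((lam * v : ℝ) : ℂ) - β‖) ^ 2 =
      (η * ‖g‖ ^ 2 / β.im ^ 2) * (1 + ((v - β.re / lam) / (β.im / lam)) ^ 2)⁻¹ := by
    intro v
    have h1 : ‖((lam * v : ℝ) : ℂ) - β‖ ^ 2 = (lam * v - β.re) ^ 2 + β.im ^ 2 := by
      rw [← Complex.normSq_eq_norm_sq, Complex.normSq_apply]
      simp
      ring
    have h2 : (v - β.re / lam) / (β.im / lam) = (lam * v - β.re) / β.im := by
      field_simp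
    rw [div_pow, h1, h2]
    have h3 : 0 < (lam * v - β.re) ^ 2 + β.im ^ 2 := by positivity
    have h4 : (1 + ((lam * v - β.re) / β.im) ^ 2)⁻¹ =
        β.im ^ 2 / ((lam * v - β.re) ^ 2 + β.im ^ 2) := by
      rw [inv_eq_iff_eq_inv, inv_div]
      field_simp
      ring
    rw [h4]
    field_simp
  have h5 : ∫⁻ v : ℝ, ENNReal.ofReal (η * (‖g‖ / ‖((lam * v : ℝ) : ℂ) - β‖) ^ 2) =
      ENNReal.ofReal ((η * ‖g‖ ^ 2 / β.im ^ 2) * ((β.im / lam) * Real.pi)) := by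
    rw [← inv_integral (β.re / lam) (β.im / lam) hη', ← integral_const_mul,
      ofReal_integral_eq_lintegral_ofReal ((inv_integrable _ _ hη').const_mul _)
        (Filter.Eventually.of_forall fun v => by positivity)]
    exact lintegral_congr fun v => by rw [hpt v]
  rw [h5, smul_eq_mul, ← ENNReal.ofReal_mul hD.le]
  have h6 : D * ((η * ‖g‖ ^ 2 / β.im ^ 2) * ((β.im / lam) * Real.pi)) ≤
      (Real.pi * D / lam) * ‖g‖ ^ s := by
    have h7 : D * ((η * ‖g‖ ^ 2 / β.im ^ 2) * ((β.im / lam) * Real.pi)) =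
        (Real.pi * D / lam) * (η * ‖g‖ ^ 2 / β.im) := by
      field_simp
    rw [h7]
    have h8 : η * ‖g‖ ^ 2 / β.im ≤ ‖g‖ ^ 2 / (1 + ‖g‖ ^ 2) := by
      rw [div_le_div_iff₀ hi hg0]
      nlinarith [sq_nonneg ‖g‖, mul_le_mul_of_nonneg_left hβ (sq_nonneg ‖g‖)]
    have h9 := h8.trans (sq_div_le ‖g‖ s (norm_nonneg g) hs hs1)
    exact mul_le_mul_of_nonneg_left h9 (by positivity)
  refine (ENNReal.ofReal_le_ofReal h6).trans (le_of_eq ?_)
  rw [ENNReal.ofReal_mul (by positivity)]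
  congr 1
  rw [← ofReal_norm, ENNReal.ofReal_rpow_of_nonneg (norm_nonneg g) hs.le]

theorem rpow_sum_le {κ : Type} (S : Finset κ) (f : κ → ℝ≥0∞) (s : ℝ) (hs : 0 < s) (hs1 : s ≤ 1) :
    (∑ w ∈ S, f w) ^ s ≤ ∑ w ∈ S, f w ^ s := by
  classical
  induction S using Finset.induction_on with
  | empty => rw [Finset.sum_empty, Finset.sum_empty, ENNReal.zero_rpow_of_pos hs]
  | insert a S ha ih =>
    rw [Finset.sum_insert ha, Finset.sum_insert ha]
    exact (ENNReal.rpow_add_le_add_rpow _ _ hs.le hs1).trans (add_le_add le_rfl ih)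

variable {ι : Type}

theorem grf_ker {K : ℕ} {t : ι → ι → ℝ} {N : ι → Finset ι} (h : Grf K t N) : Ker (K : ℝ) t := by
  classical
  have h0 : ∀ x y, y ∉ N x → |t x y| = 0 := by
    intro x y hy
    rw [abs_eq_zero]
    by_contra hne
    exact hy (h.nb x y hne)
  refine ⟨Nat.cast_nonneg K, h.sy, fun x => summable_of_ne_finset_zero (s := N x) (h0 x),
    fun x => ?_⟩
  rw [tsum_eq_sum (s := N x) (h0 x)]
  calc ∑ y ∈ N x, |t x y| ≤ ∑ y ∈ N x, (1 : ℝ) := Finset.sum_le_sum fun y _ => h.le x y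
    _ = ((N x).card : ℝ) := by rw [Finset.sum_const, nsmul_eq_mul, mul_one]
    _ ≤ K := by exact_mod_cast h.cd x

theorem ker_rk {M : ℝ} {t : ι → ι → ℝ} (ht : Ker M t) (Ω : Set ι) : Ker M (rk Ω t) := by
  classical
  have habs : ∀ x y, |rk Ω t x y| ≤ |t x y| := by
    intro x y
    unfold rk
    split_ifs
    · exact le_rfl
    · rw [abs_zero]
      exact abs_nonneg _
  have hs : ∀ x, Summable fun y => |rk Ω t x y| := fun x =>
    (ht.sm x).of_nonneg_of_le (fun y => abs_nonneg _) (habs x)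
  refine ⟨ht.h0, fun x y => ?_, hs, fun x => ?_⟩
  · unfold rk
    rw [ht.sy x y]
    simp only [and_comm]
  · exact ((hs x).tsum_le_tsum (habs x) (ht.sm x)).trans (ht.le x)

theorem gr_im (hA : S_ruA) {K : ℕ} {t : ι → ι → ℝ} {N : ι → Finset ι} (hG : Grf K t N)
    (V : ι → ℝ) (Ω : Set ι) (z : ℂ) (hz : 0 < z.im) {x y : ι} (hx : x ∈ Ω) (hyx : y ≠ x) :
    z.im * (‖GR t V Ω z x x‖ ^ 2 + ‖GR t V Ω z y x‖ ^ 2) ≤ (GR t V Ω z x x).im := by
  classical
  have hT : Rs (Op (rk Ω t)) := (Pool.Agent.H168.Y987.op ι (rk Ω t) K (ker_rk (grf_ker hG) Ω)).2.2.1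
  have e1 : GR t V Ω z x x = GU (Op (rk Ω t)) V z x x := if_pos ⟨hx, hx⟩
  have e2 : ‖GR t V Ω z y x‖ ≤ ‖GU (Op (rk Ω t)) V z y x‖ := by
    unfold GR
    split_ifs
    · exact le_rfl
    · rw [norm_zero]
      exact norm_nonneg _
  rw [e1, Pool.Agent.H399.GA.gu_im hA _ hT V z hz.ne' x]
  apply mul_le_mul_of_nonneg_left _ hz.le
  have h1 := lp.sum_rpow_le_norm_rpow (p := 2) (by norm_num)
    (RU (Op (rk Ω t)) V z (dv x)) ({x, y} : Finset ι)
  rw [Finset.sum_pair hyx.symm] at h1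
  have h2 : (2 : ℝ≥0∞).toReal = ((2 : ℕ) : ℝ) := by norm_num
  rw [h2, Real.rpow_natCast, Real.rpow_natCast, Real.rpow_natCast] at h1
  refine le_trans (add_le_add (le_of_eq rfl) (pow_le_pow_left₀ (norm_nonneg _) e2 2)) h1

/-- the sum of the rows -/
noncomputable def gs (t : ι → ι → ℝ) (N : ι → Finset ι) (V : ι → ℝ) (Ω : Set ι) (z : ℂ) (x y : ι) :
    ℂ := ∑ w ∈ N x, ((t x w : ℝ) : ℂ) * GR t V (Ω \ {x}) z w y

/-- `z` plus the self energy -/
noncomputable def bt (t : ι → ι → ℝ) (N : ι → Finset ι) (V : ι → ℝ) (Ω : Set ι) (z : ℂ) (x : ι) :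
    ℂ := z + ∑ w ∈ N x, ∑ w' ∈ N x,
        ((t x w : ℝ) : ℂ) * ((t x w' : ℝ) : ℂ) * GR t V (Ω \ {x}) z w w'

theorem core (hA : S_ruA) (hsch : S_sch) {K : ℕ} {t : ι → ι → ℝ} {N : ι → Finset ι}
    (hG : Grf K t N) (V : ι → ℝ) (Ω : Set ι) (z : ℂ) (hz : 0 < z.im) {x y : ι} (hx : x ∈ Ω)
    (hyx : y ≠ x) :
    ‖GR t V Ω z x y‖ = ‖gs t N V Ω z x y‖ / ‖((V x : ℝ) : ℂ) - bt t N V Ω z x‖ ∧
    z.im * (1 + ‖gs t N V Ω z x y‖ ^ 2) ≤ (bt t N V Ω z x).im := by
  obtain ⟨hsy, -, -, h4⟩ := hsch ι K t N hG V Ω z hz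
  obtain ⟨-, h5, h6, -⟩ := h4 x hx
  have h7 := h6 y hyx
  obtain ⟨g, hg⟩ : ∃ g, g = gs t N V Ω z x y := ⟨_, rfl⟩
  obtain ⟨b, hb⟩ : ∃ b, b = bt t N V Ω z x := ⟨_, rfl⟩
  obtain ⟨X, hX⟩ : ∃ X, X = ((V x : ℝ) : ℂ) - b := ⟨_, rfl⟩
  obtain ⟨G, hGd⟩ : ∃ G, G = GR t V Ω z x x := ⟨_, rfl⟩
  have h8 : G * X = 1 := by
    rw [hX, hb, hGd]
    unfold bt
    rw [← h5]
    ring
  have h9 : GR t V Ω z x y = -(G * g) := by
    rw [hGd, hg]
    exact h7
  have hX0 : X ≠ 0 := by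
    intro h
    rw [h, mul_zero] at h8
    exact zero_ne_one h8
  have hXn : 0 < ‖X‖ := norm_pos_iff.2 hX0
  have hGX : G = X⁻¹ := eq_inv_of_mul_eq_one_left h8
  have h10 := gr_im hA hG V Ω z hz hx hyx
  rw [hsy y x, ← hGd, h9, norm_neg, norm_mul, hGX, norm_inv, Complex.inv_im,
    Complex.normSq_eq_norm_sq] at h10
  rw [← hg, ← hb, ← hX, h9, norm_neg, norm_mul, hGX, norm_inv]
  refine ⟨by rw [inv_mul_eq_div], ?_⟩
  have h11 : X.im = -b.im := by
    rw [hX, Complex.sub_im, Complex.ofReal_im, zero_sub]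
  rw [h11, neg_neg, le_div_iff₀ (by positivity)] at h10
  have h12 : z.im * ((‖X‖⁻¹) ^ 2 + (‖X‖⁻¹ * ‖g‖) ^ 2) * ‖X‖ ^ 2 = z.im * (1 + ‖g‖ ^ 2) := by
    field_simp
  rw [h12] at h10
  exact h10

theorem eta (hsch : S_sch) (hm : S_measR) : S_eta := by
  classical
  intro D lam s hD hl hs hs1 μ _ hμ ι _ K t N hG Ω z x y hz hx hyx
  have hA : S_ruA := Pool.Agent.H155.GA.ruA
  have hmeas : Measurable fun ω : ι → ℝ => GR t (fun p => lam * ω p) Ω z x y :=
    hm ι K t N hG lam Ω z x y hz.ne'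
  have hmeas1 : ∀ w, Measurable fun ω : ι → ℝ => GR t (fun p => lam * ω p) (Ω \ {x}) z w y :=
    fun w => hm ι K t N hG lam (Ω \ {x}) z w y hz.ne'
  rw [Pool.Agent.H121.Z987.lint_resample μ x _
    ((hmeas.norm.pow_const 2).const_mul z.im).ennreal_ofReal]
  have hinner : ∀ ω : ι → ℝ, ∫⁻ v, ENNReal.ofReal
      (z.im * ‖GR t (fun p => lam * Function.update ω x v p) Ω z x y‖ ^ 2) ∂μ ≤
      ENNReal.ofReal (Real.pi * D / lam) *
        ∑ w ∈ N x, ‖GR t (fun p => lam * ω p) (Ω \ {x}) z w y‖ₑ ^ s := by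
    intro ω
    have hind : ∀ v : ℝ, ∀ p q, GR t (fun p => lam * Function.update ω x v p) (Ω \ {x}) z p q =
        GR t (fun p => lam * ω p) (Ω \ {x}) z p q := by
      intro v
      exact (hsch ι K t N hG (fun p => lam * ω p) (Ω \ {x}) z hz).2.1 _ (by
        intro p hp
        have hpx : p ≠ x := fun h => hp.2 (by rw [h]; rfl)
        rw [Function.update_of_ne hpx])
    have hgs : ∀ v : ℝ, gs t N (fun p => lam * Function.update ω x v p) Ω z x y =
        gs t N (fun p => lam * ω p) Ω z x y := by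
      intro v
      unfold gs
      exact Finset.sum_congr rfl fun w _ => by rw [hind v]
    have hbt : ∀ v : ℝ, bt t N (fun p => lam * Function.update ω x v p) Ω z x =
        bt t N (fun p => lam * ω p) Ω z x := by
      intro v
      unfold bt
      congr 1
      exact Finset.sum_congr rfl fun w _ => Finset.sum_congr rfl fun w' _ => by rw [hind v]
    have h1 : ∀ v : ℝ, ENNReal.ofReal
        (z.im * ‖GR t (fun p => lam * Function.update ω x v p) Ω z x y‖ ^ 2) =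
        ENNReal.ofReal (z.im * (‖gs t N (fun p => lam * ω p) Ω z x y‖ /
          ‖((lam * v : ℝ) : ℂ) - bt t N (fun p => lam * ω p) Ω z x‖) ^ 2) := by
      intro v
      have h2 := (core hA hsch hG (fun p => lam * Function.update ω x v p) Ω z hz hx hyx).1
      rw [hgs v, hbt v, Function.update_self] at h2
      rw [h2]
    rw [lintegral_congr h1]
    have h3 := (core hA hsch hG (fun p => lam * ω p) Ω z hz hx hyx).2
    refine (one_int D lam s z.im hD hl hs hs1 μ hμ hz _ _ h3).trans ?_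
    gcongr
    unfold gs
    calc ‖∑ w ∈ N x, ((t x w : ℝ) : ℂ) * GR t (fun p => lam * ω p) (Ω \ {x}) z w y‖ₑ ^ s
        ≤ (∑ w ∈ N x, ‖((t x w : ℝ) : ℂ) * GR t (fun p => lam * ω p) (Ω \ {x}) z w y‖ₑ) ^ s := by
          gcongr
          exact enorm_sum_le _ _
      _ ≤ (∑ w ∈ N x, ‖GR t (fun p => lam * ω p) (Ω \ {x}) z w y‖ₑ) ^ s := by
          gcongr with w _
          rw [enorm_mul]
          have h4 : ‖((t x w : ℝ) : ℂ)‖ₑ ≤ 1 := by
            rw [← ofReal_norm, Complex.norm_real, Real.norm_eq_abs, ← ENNReal.ofReal_one]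
            exact ENNReal.ofReal_le_ofReal (hG.le x w)
          exact mul_le_of_le_one_left zero_le h4
      _ ≤ ∑ w ∈ N x, ‖GR t (fun p => lam * ω p) (Ω \ {x}) z w y‖ₑ ^ s :=
          rpow_sum_le _ _ s hs hs1
  refine (lintegral_mono hinner).trans (le_of_eq ?_)
  rw [lintegral_const_mul _ (Finset.measurable_sum _ fun w _ => ((hmeas1 w).enorm.pow_const s)),
    lintegral_finsetSum _ fun w _ => ((hmeas1 w).enorm.pow_const s)]
  rfl

end Pool.Agent.H115.SH
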